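import Pool.Agent.Helper477.Sph.Lens1

set_option autoImplicit false

/-! # Block rotations with angles in `ZMod N` and block permutations -/

namespace Pool.Agent.Q185.SF

open Pool.Agent.Helper477.Sph
open scoped Matrix

variable {n : ℕ}

theorem rot_periodic (θ : ℝ) (k : ℤ) : rot (θ + k * (2 * Real.pi)) = rot θ := by
  unfold rot
  rw [Real.cos_add_int_mul_two_pi, Real.sin_add_int_mul_two_pi]

/-- The rotation by `2 π a / N`. -/
noncomputable def rz {N : ℕ} (a : ZMod N) : Matrix (Fin 2) (Fin 2) ℝ :=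
  rot (2 * Real.pi * a.val / N)

theorem rz_add {N : ℕ} [NeZero N] (a b : ZMod N) : rz a * rz b = rz (a + b) := by
  unfold rz
  rw [rot_mul]
  have hN : (N : ℝ) ≠ 0 := by exact_mod_cast (NeZero.ne N)
  by_cases h : a.val + b.val < N
  · rw [ZMod.val_add_of_lt h]
    congr 1
    push_cast
    field_simp
  · push Not at h
    have h2 : (a + b).val + N = a.val + b.val := by
      rw [ZMod.val_add_of_le h]; omega
    have h3 : ((a + b).val : ℝ) + N = a.val + b.val := by exact_mod_cast h2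
    have h4 : 2 * Real.pi * a.val / N + 2 * Real.pi * b.val / N =
        2 * Real.pi * (a + b).val / N + ((1 : ℤ) : ℝ) * (2 * Real.pi) := by
      have : (a.val : ℝ) + b.val = (a + b).val + N := h3.symm
      field_simp
      push_cast
      linear_combination (1 : ℝ) * this
    rw [h4, rot_periodic]

theorem rz_zero {N : ℕ} [NeZero N] : rz (0 : ZMod N) = 1 := by
  unfold rz
  rw [ZMod.val_zero]
  simp [rot_zero]

/-- Block rotation with the angles `2 π w / N`. -/
noncomputable def Dz {N : ℕ} (w : Fin n → ZMod N) : Matrix.orthogonalGroup (Fin (2 * n)) ℝ :=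
  Lg fun x => 2 * Real.pi * (w x).val / N

theorem Dz_coe {N : ℕ} (w : Fin n → ZMod N) : (Dz w).1 =
    (Matrix.blockDiagonal fun j => rz (w j)).submatrix finProdFinEquiv.symm
      finProdFinEquiv.symm := rfl

theorem Dz_add {N : ℕ} [NeZero N] (w w' : Fin n → ZMod N) : Dz w * Dz w' = Dz (w + w') := by
  apply Subtype.ext
  change (Dz w).1 * (Dz w').1 = (Dz (w + w')).1
  rw [Dz_coe, Dz_coe, Dz_coe, Matrix.submatrix_mul_equiv, ← Matrix.blockDiagonal_mul]
  simp only [rz_add]
  rfl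

theorem Dz_zero {N : ℕ} [NeZero N] : Dz (0 : Fin n → ZMod N) = 1 := by
  have h := Dz_add (n := n) (0 : Fin n → ZMod N) 0
  rw [add_zero] at h
  exact mul_eq_left.mp h

theorem Lg_comm (θ φ : Fin n → ℝ) : Lg θ * Lg φ = Lg φ * Lg θ := by
  apply Subtype.ext
  change Lmat θ * Lmat φ = Lmat φ * Lmat θ
  rw [Lmat_mul, Lmat_mul, add_comm]

theorem Dz_comm {N N' : ℕ} (w : Fin n → ZMod N) (w' : Fin n → ZMod N') :
    Dz w * Dz w' = Dz w' * Dz w := Lg_comm _ _

/-- The matrix permuting the blocks: it sends block `x` to block `σ x`. -/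
def Pmat (σ : Equiv.Perm (Fin n)) : Matrix (Fin (2 * n)) (Fin (2 * n)) ℝ :=
  fun i j => if (finProdFinEquiv.symm i) =
    ((finProdFinEquiv.symm j).1, σ (finProdFinEquiv.symm j).2) then 1 else 0

theorem Pmat_mulVec (σ : Equiv.Perm (Fin n)) (v : Fin (2 * n) → ℝ) (a : Fin 2) (x : Fin n) :
    (Pmat σ).mulVec v (finProdFinEquiv (a, σ x)) = v (finProdFinEquiv (a, x)) := by
  rw [Matrix.mulVec, dotProduct]
  rw [Finset.sum_eq_single (finProdFinEquiv (a, x))]
  · simp [Pmat]
  · intro b _ hb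
    have : Pmat σ (finProdFinEquiv (a, σ x)) b = 0 := by
      unfold Pmat
      rw [if_neg]
      intro h
      apply hb
      rw [Equiv.symm_apply_apply, Prod.ext_iff] at h
      simp only [EmbeddingLike.apply_eq_iff_eq] at h
      rw [← Equiv.symm_apply_eq]
      exact (Prod.ext h.1 h.2).symm
    rw [this, zero_mul]
  · intro h; exact absurd (Finset.mem_univ _) h

theorem mat_ext {m : ℕ} {A B : Matrix (Fin m) (Fin m) ℝ} (h : ∀ v, A.mulVec v = B.mulVec v) :
    A = B := by
  ext i j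
  have := congrFun (h (Pi.single j 1)) i
  simpa using this

theorem Pmat_mulVec' (σ : Equiv.Perm (Fin n)) (v : Fin (2 * n) → ℝ) (a : Fin 2) (x : Fin n) :
    (Pmat σ).mulVec v (finProdFinEquiv (a, x)) = v (finProdFinEquiv (a, σ.symm x)) := by
  have := Pmat_mulVec σ v a (σ.symm x)
  rwa [Equiv.apply_symm_apply] at this

theorem fin_ext {v w : Fin (2 * n) → ℝ}
    (h : ∀ a x, v (finProdFinEquiv (a, x)) = w (finProdFinEquiv (a, x))) : v = w := by
  funext i
  obtain ⟨⟨a, x⟩, rfl⟩ := finProdFinEquiv.surjective i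
  exact h a x

theorem Pmat_mul (σ τ : Equiv.Perm (Fin n)) : Pmat σ * Pmat τ = Pmat (σ * τ) := by
  apply mat_ext
  intro v
  rw [← Matrix.mulVec_mulVec]
  apply fin_ext
  intro a x
  rw [Pmat_mulVec', Pmat_mulVec', Pmat_mulVec']
  rfl

theorem Pmat_one : Pmat (1 : Equiv.Perm (Fin n)) = 1 := by
  apply mat_ext
  intro v
  rw [Matrix.one_mulVec]
  apply fin_ext
  intro a x
  rw [Pmat_mulVec']
  rfl

theorem Pmat_transpose (σ : Equiv.Perm (Fin n)) : (Pmat σ)ᵀ = Pmat σ⁻¹ := by
  ext i j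
  rw [Matrix.transpose_apply]
  unfold Pmat
  congr 1
  rw [eq_iff_iff]
  constructor
  · intro h
    rw [Prod.ext_iff] at h ⊢
    refine ⟨h.1.symm, ?_⟩
    rw [h.2]
    simp
  · intro h
    rw [Prod.ext_iff] at h ⊢
    refine ⟨h.1.symm, ?_⟩
    rw [h.2]
    simp

/-- The block permutation as an orthogonal transformation. -/
def Pg : Equiv.Perm (Fin n) →* Matrix.orthogonalGroup (Fin (2 * n)) ℝ where
  toFun σ := ⟨Pmat σ, (Matrix.mem_orthogonalGroup_iff _ _).mpr (by
    rw [Pmat_transpose, Pmat_mul, mul_inv_cancel, Pmat_one])⟩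
  map_one' := Subtype.ext Pmat_one
  map_mul' σ τ := Subtype.ext (Pmat_mul σ τ).symm

theorem Pg_coe (σ : Equiv.Perm (Fin n)) : (Pg σ).1 = Pmat σ := rfl

theorem Dz_mulVec {N : ℕ} (w : Fin n → ZMod N) (v : Fin (2 * n) → ℝ) (a : Fin 2) (x : Fin n) :
    (Dz w).1.mulVec v (finProdFinEquiv (a, x)) =
      (rz (w x)).mulVec (fun b => v (finProdFinEquiv (b, x))) a := by
  rw [Dz_coe, Matrix.mulVec, dotProduct, Matrix.mulVec, dotProduct]
  rw [← finProdFinEquiv.sum_comp, Fintype.sum_prod_type]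
  refine Finset.sum_congr rfl fun b _ => ?_
  rw [Finset.sum_eq_single x]
  · simp [Matrix.blockDiagonal_apply]
  · intro y _ hy
    rw [Matrix.submatrix_apply, Equiv.symm_apply_apply, Equiv.symm_apply_apply,
      Matrix.blockDiagonal_apply, if_neg (fun h => hy h.symm), zero_mul]
  · intro h; exact absurd (Finset.mem_univ _) h

theorem Pg_Dz {N : ℕ} (σ : Equiv.Perm (Fin n)) (w : Fin n → ZMod N) :
    Pg σ * Dz w = Dz (w ∘ σ.symm) * Pg σ := by
  apply Subtype.ext
  change Pmat σ * (Dz w).1 = (Dz (w ∘ σ.symm)).1 * Pmat σ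
  apply mat_ext
  intro v
  rw [← Matrix.mulVec_mulVec, ← Matrix.mulVec_mulVec]
  apply fin_ext
  intro a x
  rw [Pmat_mulVec', Dz_mulVec, Dz_mulVec]
  simp only [Pmat_mulVec', Function.comp_apply]

/-- A plane rotation with a nonzero fixed vector is trivial. -/
theorem rot_fixed {θ : ℝ} (hθ : Real.cos θ ≠ 1) {v : Fin 2 → ℝ} (h : (rot θ).mulVec v = v) :
    v = 0 := by
  have h0 := congrFun h 0
  have h1 := congrFun h 1
  simp only [rot, Matrix.mulVec, dotProduct, Fin.sum_univ_two, Matrix.of_apply, Matrix.cons_val',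
    Matrix.cons_val_zero, Matrix.cons_val_one, Matrix.cons_val_fin_one] at h0 h1
  have hcs := Real.cos_sq_add_sin_sq θ
  have hc : 1 - Real.cos θ ≠ 0 := sub_ne_zero.mpr (Ne.symm hθ)
  have e0 : 2 * (1 - Real.cos θ) * v 0 = 0 := by
    linear_combination (Real.cos θ - 1) * h0 + Real.sin θ * h1 - v 0 * hcs
  have e1 : 2 * (1 - Real.cos θ) * v 1 = 0 := by
    linear_combination (Real.cos θ - 1) * h1 - Real.sin θ * h0 - v 1 * hcs
  have hne : 2 * (1 - Real.cos θ) ≠ 0 := mul_ne_zero two_ne_zero hc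
  funext i
  fin_cases i
  · exact (mul_eq_zero.mp e0).resolve_left hne
  · exact (mul_eq_zero.mp e1).resolve_left hne

end Pool.Agent.Q185.SF
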