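import Pool.Agent.Q185.SF.Blk

set_option autoImplicit false

/-! # Two metacyclic groups of order 819 acting freely on spheres -/

namespace Pool.Agent.Q185.SF

open Pool.Agent.Helper477.Sph
open scoped Matrix

/-- The character exponents: `K (a, b) = 79 ^ a * 29 ^ b` in `ZMod 91`. -/
def K (p : ZMod 3 × ZMod 3) : ZMod 91 := 79 ^ p.1.val * 29 ^ p.2.val

theorem K_add : ∀ p q : ZMod 3 × ZMod 3, K (p + q) = K p * K q := by decide

theorem K_zero : K 0 = 1 := by decide

variable {t : ℕ}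

/-- The index set. -/
noncomputable def e (t : ℕ) : (Fin t × ZMod 3 × ZMod 3) ≃ Fin (9 * t) :=
  Fintype.equivFinOfCardEq (by
    rw [Fintype.card_prod, Fintype.card_prod, ZMod.card, Fintype.card_fin]; ring)

/-- The shift of the index set. -/
noncomputable def sh (t : ℕ) (s : ZMod 3 × ZMod 3) : Equiv.Perm (Fin (9 * t)) :=
  (e t).permCongr (Equiv.prodCongr (Equiv.refl (Fin t)) (Equiv.addRight s))

theorem sh_apply (s : ZMod 3 × ZMod 3) (x : Fin (9 * t)) :
    sh t s x = e t (((e t).symm x).1, ((e t).symm x).2 + s) := rfl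

theorem sh_symm_apply (s : ZMod 3 × ZMod 3) (x : Fin (9 * t)) :
    (sh t s).symm x = e t (((e t).symm x).1, ((e t).symm x).2 - s) := by
  rw [Equiv.symm_apply_eq, sh_apply, Equiv.symm_apply_apply, sub_add_cancel]
  simp

theorem sh_mul (s s' : ZMod 3 × ZMod 3) : sh t s * sh t s' = sh t (s' + s) := by
  ext x : 1
  rw [Equiv.Perm.mul_apply, sh_apply, sh_apply, sh_apply, Equiv.symm_apply_apply]
  simp only [add_assoc]

theorem sh_zero : sh t 0 = 1 := by
  ext x : 1
  rw [sh_apply, add_zero]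
  simp

theorem sh_pow (s : ZMod 3 × ZMod 3) (k : ℕ) : sh t s ^ k = sh t (k • s) := by
  induction k with
  | zero => rw [pow_zero, zero_smul, sh_zero]
  | succ k ih => rw [pow_succ, ih, sh_mul, add_comm, succ_nsmul]

/-- The exponents on the index set. -/
noncomputable def Kf (t : ℕ) (x : Fin (9 * t)) : ZMod 91 := K ((e t).symm x).2

theorem Kf_symm (s : ZMod 3 × ZMod 3) (x : Fin (9 * t)) :
    Kf t ((sh t s).symm x) = K (-s) * Kf t x := by
  unfold Kf
  rw [sh_symm_apply, Equiv.symm_apply_apply, sub_eq_add_neg, K_add, mul_comm]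

theorem K_nsmul (s : ZMod 3 × ZMod 3) (k : ℕ) : K (k • s) = K s ^ k := by
  induction k with
  | zero => rw [zero_smul, K_zero, pow_zero]
  | succ k ih => rw [succ_nsmul, K_add, ih, pow_succ]

/-- The elements of the group. -/
noncomputable def rho (t : ℕ) (s : ZMod 3 × ZMod 3) (i : ZMod 91) (j : ZMod 9) :
    Matrix.orthogonalGroup (Fin (2 * (9 * t))) ℝ :=
  Dz (fun x => i * Kf t x) * Dz (fun _ => j) * Pg (sh t (j.val • s))

theorem val_add_smul (s : ZMod 3 × ZMod 3) : ∀ j j' : ZMod 9,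
    (j + j').val • s = j.val • s + j'.val • s := by
  have h : ∀ s : ZMod 3 × ZMod 3, ∀ j j' : ZMod 9,
    (j + j').val • s = j.val • s + j'.val • s := by decide
  exact h s

theorem rho_mul (s : ZMod 3 × ZMod 3) (i i' : ZMod 91) (j j' : ZMod 9) :
    rho t s i j * rho t s i' j' = rho t s (i + K (-s) ^ j.val * i') (j + j') := by
  unfold rho
  set σ := sh t (j.val • s) with hσ
  have h1 : Pg σ * Dz (fun x => i' * Kf t x) =
      Dz (fun x => (K (-s) ^ j.val * i') * Kf t x) * Pg σ := by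
    rw [Pg_Dz]
    congr 2
    funext x
    rw [Function.comp_apply, hσ, Kf_symm, ← smul_neg, K_nsmul]
    ring
  have h2 : Pg σ * Dz (fun _ : Fin (9 * t) => j') = Dz (fun _ : Fin (9 * t) => j') * Pg σ := by
    rw [Pg_Dz]
    rfl
  have h3 : Pg σ * Pg (sh t (j'.val • s)) = Pg (sh t ((j + j').val • s)) := by
    rw [← map_mul, hσ, sh_mul, val_add_smul, add_comm]
  calc Dz (fun x => i * Kf t x) * Dz (fun _ => j) * Pg σ *
        (Dz (fun x => i' * Kf t x) * Dz (fun _ => j') * Pg (sh t (j'.val • s)))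
      = Dz (fun x => i * Kf t x) * Dz (fun _ => j) * (Pg σ * Dz (fun x => i' * Kf t x)) *
          Dz (fun _ => j') * Pg (sh t (j'.val • s)) := by group
    _ = Dz (fun x => i * Kf t x) * (Dz (fun _ => j) * Dz (fun x => (K (-s) ^ j.val * i') * Kf t x))
          * (Pg σ * Dz (fun _ => j')) * Pg (sh t (j'.val • s)) := by rw [h1]; group
    _ = Dz (fun x => i * Kf t x) * (Dz (fun x => (K (-s) ^ j.val * i') * Kf t x) * Dz (fun _ => j))
          * (Dz (fun _ => j') * Pg σ) * Pg (sh t (j'.val • s)) := by rw [h2, Dz_comm (fun _ => j)]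
    _ = (Dz (fun x => i * Kf t x) * Dz (fun x => (K (-s) ^ j.val * i') * Kf t x)) *
          (Dz (fun _ => j) * Dz (fun _ => j')) * (Pg σ * Pg (sh t (j'.val • s))) := by group
    _ = _ := by
      rw [Dz_add, Dz_add, h3]
      congr 3
      funext x
      rw [Pi.add_apply]
      ring

theorem rho_zero (s : ZMod 3 × ZMod 3) : rho t s 0 0 = 1 := by
  have h := rho_mul (t := t) s 0 0 0 0
  simp only [mul_zero, add_zero] at h
  exact mul_eq_left.mp h

theorem rho_inv (s : ZMod 3 × ZMod 3) (i : ZMod 91) (j : ZMod 9) :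
    (rho t s i j)⁻¹ = rho t s (-(K s ^ j.val * i)) (-j) := by
  symm
  apply eq_inv_of_mul_eq_one_right
  rw [rho_mul, add_neg_cancel]
  have h : K (-s) ^ j.val * K s ^ j.val = 1 := by
    rw [← mul_pow, ← K_add, neg_add_cancel, K_zero, one_pow]
  have : i + K (-s) ^ j.val * -(K s ^ j.val * i) = 0 := by
    linear_combination (-i) * h
  rw [this, rho_zero]

/-- The group. -/
noncomputable def Gam (t : ℕ) (s : ZMod 3 × ZMod 3) :
    Subgroup (Matrix.orthogonalGroup (Fin (2 * (9 * t))) ℝ) where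
  carrier := Set.range fun p : ZMod 91 × ZMod 9 => rho t s p.1 p.2
  mul_mem' := by
    rintro _ _ ⟨p, rfl⟩ ⟨q, rfl⟩
    exact ⟨(_, _), (rho_mul s p.1 q.1 p.2 q.2).symm⟩
  one_mem' := ⟨(0, 0), rho_zero s⟩
  inv_mem' := by
    rintro _ ⟨p, rfl⟩
    exact ⟨(_, _), (rho_inv s p.1 p.2).symm⟩

theorem mem_Gam (s : ZMod 3 × ZMod 3) (g) : g ∈ Gam t s ↔ ∃ i j, rho t s i j = g := by
  constructor
  · rintro ⟨p, rfl⟩; exact ⟨_, _, rfl⟩
  · rintro ⟨i, j, rfl⟩; exact ⟨(i, j), rfl⟩

/-- The rotation angle in the cyclic part is nontrivial. -/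
theorem cos_ne_one (a : ZMod 91) (j : ZMod 9) (h : a ≠ 0 ∨ j ≠ 0) :
    Real.cos (2 * Real.pi * a.val / (91 : ℕ) + 2 * Real.pi * j.val / (9 : ℕ)) ≠ 1 := by
  intro hc
  rw [Real.cos_eq_one_iff] at hc
  obtain ⟨n, hn⟩ := hc
  have hpi := Real.pi_ne_zero
  have h1 : (n : ℝ) * 819 = 9 * a.val + 91 * j.val := by
    field_simp at hn
    push_cast at hn
    linear_combination hn
  have h2 : n * 819 = 9 * (a.val : ℤ) + 91 * (j.val : ℤ) := by exact_mod_cast h1
  have ha := a.val_lt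
  have hj := j.val_lt
  have ha0 : a.val = 0 := by omega
  have hj0 : j.val = 0 := by omega
  rw [ZMod.val_eq_zero] at ha0 hj0
  rcases h with h | h
  · exact h ha0
  · exact h hj0

theorem fixed_cyc (s : ZMod 3 × ZMod 3) (i : ZMod 91) (j : ZMod 9) (hj : j.val • s = 0)
    (h : i ≠ 0 ∨ j ≠ 0) (v : Fin (2 * (9 * t)) → ℝ) (hv : (rho t s i j).1.mulVec v = v) :
    v = 0 := by
  have h1 : (rho t s i j).1 = (Dz (fun x => i * Kf t x)).1 * (Dz (fun _ => j)).1 := by
    unfold rho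
    rw [hj, sh_zero, map_one, mul_one]
    rfl
  apply fin_ext
  intro a x
  have h2 : (rot (2 * Real.pi * (i * Kf t x).val / (91 : ℕ) +
      2 * Real.pi * j.val / (9 : ℕ))).mulVec (fun b => v (finProdFinEquiv (b, x))) =
      fun b => v (finProdFinEquiv (b, x)) := by
    funext b
    have h3 := congrFun hv (finProdFinEquiv (b, x))
    rw [h1, ← Matrix.mulVec_mulVec, Dz_mulVec] at h3
    rw [← rot_mul, ← Matrix.mulVec_mulVec]
    have h4 : (rot (2 * Real.pi * j.val / (9 : ℕ))).mulVec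
        (fun b => v (finProdFinEquiv (b, x))) =
        fun c => (Dz (fun _ : Fin (9 * t) => j)).1.mulVec v (finProdFinEquiv (c, x)) := by
      funext c
      rw [Dz_mulVec]
      rfl
    rw [h4]
    exact h3
  have h4 := rot_fixed (cos_ne_one _ _ ?_) h2
  · have := congrFun h4 a
    simpa using this
  · rcases h with h | h
    · left
      intro h5
      apply h
      have h6 : K ((e t).symm x).2 * K (-((e t).symm x).2) = 1 := by
        rw [← K_add, add_neg_cancel, K_zero]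
      have h7 : i * (Kf t x * K (-((e t).symm x).2)) = 0 := by
        rw [← mul_assoc, h5, zero_mul]
      unfold Kf at h7
      rwa [h6, mul_one] at h7
    · right; exact h

/-- The admissible directions. -/
def Adm (s : ZMod 3 × ZMod 3) : Prop := s = (-1, -1) ∨ s = (-1, 1)

theorem adm_aux1 : ∀ j : ZMod 9, j.val • ((-1, -1) : ZMod 3 × ZMod 3) ≠ 0 →
    (1 + K (-(-1, -1)) ^ j.val + K (-(-1, -1)) ^ j.val * K (-(-1, -1)) ^ j.val = 0 ∧
      (j + j + j) ≠ 0 ∧ (j + j + j).val • ((-1, -1) : ZMod 3 × ZMod 3) = 0 ∧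
      K (-(-1, -1)) ^ (j + j).val = K (-(-1, -1)) ^ j.val * K (-(-1, -1)) ^ j.val) := by decide

theorem adm_aux2 : ∀ j : ZMod 9, j.val • ((-1, 1) : ZMod 3 × ZMod 3) ≠ 0 →
    (1 + K (-(-1, 1)) ^ j.val + K (-(-1, 1)) ^ j.val * K (-(-1, 1)) ^ j.val = 0 ∧
      (j + j + j) ≠ 0 ∧ (j + j + j).val • ((-1, 1) : ZMod 3 × ZMod 3) = 0 ∧
      K (-(-1, 1)) ^ (j + j).val = K (-(-1, 1)) ^ j.val * K (-(-1, 1)) ^ j.val) := by decide

theorem adm_aux (s : ZMod 3 × ZMod 3) (hs : s = (-1, -1) ∨ s = (-1, 1)) (j : ZMod 9)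
    (hj : j.val • s ≠ 0) : (1 + K (-s) ^ j.val + K (-s) ^ j.val * K (-s) ^ j.val = 0 ∧
      (j + j + j) ≠ 0 ∧ (j + j + j).val • s = 0 ∧
      K (-s) ^ (j + j).val = K (-s) ^ j.val * K (-s) ^ j.val) := by
  rcases hs with rfl | rfl
  · exact adm_aux1 j hj
  · exact adm_aux2 j hj

theorem free (s : ZMod 3 × ZMod 3) (hs : Adm s) (i : ZMod 91) (j : ZMod 9)
    (h : i ≠ 0 ∨ j ≠ 0) (v : Fin (2 * (9 * t)) → ℝ) (hv : (rho t s i j).1.mulVec v = v) :
    v = 0 := by
  by_cases hj : j.val • s = 0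
  · exact fixed_cyc s i j hj h v hv
  · obtain ⟨h1, h2, h3, h5⟩ := adm_aux s hs j hj
    have h6 : rho t s i j * rho t s i j * rho t s i j = rho t s 0 (j + j + j) := by
      rw [rho_mul, rho_mul, h5]
      congr 1
      linear_combination i * h1
    have h7 : (rho t s 0 (j + j + j)).1.mulVec v = v := by
      rw [← h6]
      change ((rho t s i j).1 * (rho t s i j).1 * (rho t s i j).1).mulVec v = v
      rw [← Matrix.mulVec_mulVec, ← Matrix.mulVec_mulVec, hv, hv, hv]
    exact fixed_cyc s 0 (j + j + j) h3 (Or.inr h2) v h7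

theorem ker (ht : 0 < t) (s : ZMod 3 × ZMod 3) (hs : Adm s) (i : ZMod 91) (j : ZMod 9)
    (h : rho t s i j = 1) : i = 0 ∧ j = 0 := by
  by_contra hc
  rw [not_and_or] at hc
  have hv : ((rho t s i j).1.mulVec (fun _ => (1 : ℝ))) = fun _ => 1 := by
    rw [h]; exact Matrix.one_mulVec _
  have h0 := free s hs i j hc _ hv
  have := congrFun h0 ⟨0, by omega⟩
  simp at this

theorem inj (ht : 0 < t) (s : ZMod 3 × ZMod 3) (hs : Adm s) (i i' : ZMod 91) (j j' : ZMod 9)
    (h : rho t s i j = rho t s i' j') : i = i' ∧ j = j' := by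
  have h1 : rho t s i j * (rho t s i' j')⁻¹ = 1 := by rw [h, mul_inv_cancel]
  rw [rho_inv, rho_mul] at h1
  obtain ⟨h2, h3⟩ := ker ht s hs _ _ h1
  have hj : j = j' := by linear_combination h3
  refine ⟨?_, hj⟩
  subst hj
  have h4 : K (-s) ^ j.val * K s ^ j.val = 1 := by
    rw [← mul_pow, ← K_add, neg_add_cancel, K_zero, one_pow]
  linear_combination h2 + i' * h4

end Pool.Agent.Q185.SF
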