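import Pool.Agent.Q185.SF.Grp
import Pool.Agent.Helper477.Sph.Rig1

set_option autoImplicit false

/-! # Isospectrality and non-isomorphism of the two groups -/

namespace Pool.Agent.Q185.SF

open Pool.Agent.Helper477.Sph
open scoped Matrix

variable {t : ℕ}

theorem tau_shift (s : ZMod 3 × ZMod 3) (hs : Adm s) (i : ZMod 91) (j : ZMod 9)
    (hj : j.val • s ≠ 0) :
    tau (cx (rho t s i j).1) = tau (cx (rho t s 0 j).1) := by
  obtain ⟨h1, -, -, -⟩ := adm_aux s hs j hj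
  set w := K (-s) ^ j.val with hw
  symm
  apply tau_conj (A := rho t s (i * (61 * (1 - w * w))) 0)
  rw [rho_mul, rho_mul]
  congr 1
  · have h3 : (183 : ZMod 91) = 1 := by decide
    rw [← hw]
    have h4 : (1 - w) * (61 * (1 - w * w)) = 1 := by
      have h2 : w * w * w = 1 := by linear_combination (w - 1) * h1
      have : (1 - w) * (1 - w * w) = 3 := by linear_combination h2 - h1
      calc (1 - w) * (61 * (1 - w * w)) = 61 * ((1 - w) * (1 - w * w)) := by ring
        _ = 183 := by rw [this]; decide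
        _ = 1 := h3
    linear_combination i * h4
  · ring

/-- The reflection of the index set. -/
noncomputable def refl3 (t : ℕ) : Equiv.Perm (Fin (9 * t)) :=
  (e t).permCongr (Equiv.prodCongr (Equiv.refl (Fin t))
    (Equiv.prodCongr (Equiv.refl (ZMod 3)) (Equiv.neg (ZMod 3))))

theorem refl3_apply (x : Fin (9 * t)) :
    refl3 t x = e t (((e t).symm x).1, ((e t).symm x).2.1, -((e t).symm x).2.2) := rfl

theorem refl3_sh (k : ℕ) :
    refl3 t * sh t (k • ((-1, -1) : ZMod 3 × ZMod 3)) =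
      sh t (k • ((-1, 1) : ZMod 3 × ZMod 3)) * refl3 t := by
  ext x : 1
  rw [Equiv.Perm.mul_apply, Equiv.Perm.mul_apply, refl3_apply, sh_apply, refl3_apply, sh_apply,
    Equiv.symm_apply_apply, Equiv.symm_apply_apply]
  congr 1
  ext : 1
  · rfl
  · ext : 1
    · simp
    · simp only [Prod.snd_add, Prod.smul_snd, smul_neg, neg_add, neg_neg]

theorem tau_reflect (j : ZMod 9) :
    tau (cx (rho t (-1, -1) 0 j).1) = tau (cx (rho t (-1, 1) 0 j).1) := by
  apply tau_conj (A := Pg (refl3 t))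
  have h0 : Dz (fun x => (0 : ZMod 91) * Kf t x) = 1 := by
    rw [← Dz_zero (N := 91)]
    congr 1
    funext x
    rw [zero_mul]
    rfl
  unfold rho
  rw [h0, one_mul]
  have h2 : Pg (refl3 t) * Dz (fun _ : Fin (9 * t) => j) =
      Dz (fun _ : Fin (9 * t) => j) * Pg (refl3 t) := by
    rw [Pg_Dz]
    rfl
  have h3 : Pg (refl3 t) * Pg (sh t (j.val • ((-1, -1) : ZMod 3 × ZMod 3))) =
      Pg (sh t (j.val • ((-1, 1) : ZMod 3 × ZMod 3))) * Pg (refl3 t) := by
    rw [← map_mul, refl3_sh, map_mul]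
  calc Pg (refl3 t) * (Dz (fun _ : Fin (9 * t) => j) * Pg (sh t (j.val • (-1, -1))))
      = (Pg (refl3 t) * Dz (fun _ : Fin (9 * t) => j)) * Pg (sh t (j.val • (-1, -1))) := by group
    _ = Dz (fun _ : Fin (9 * t) => j) * (Pg (refl3 t) * Pg (sh t (j.val • (-1, -1)))) := by
      rw [h2]; group
    _ = _ := by rw [h3]; group

theorem zero_iff : ∀ j : ZMod 9, j.val • ((-1, -1) : ZMod 3 × ZMod 3) = 0 ↔
    j.val • ((-1, 1) : ZMod 3 × ZMod 3) = 0 := by decide

theorem tau_eq (i : ZMod 91) (j : ZMod 9) :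
    tau (cx (rho t (-1, -1) i j).1) = tau (cx (rho t (-1, 1) i j).1) := by
  by_cases hj : j.val • ((-1, -1) : ZMod 3 × ZMod 3) = 0
  · have hj' := (zero_iff j).mp hj
    unfold rho
    rw [hj, hj']
  · have hj' : j.val • ((-1, 1) : ZMod 3 × ZMod 3) ≠ 0 := fun h => hj ((zero_iff j).mpr h)
    rw [tau_shift _ (Or.inl rfl) i j hj, tau_shift _ (Or.inr rfl) i j hj', tau_reflect]

/-- The parametrization of the group. -/
noncomputable def par (ht : 0 < t) (s : ZMod 3 × ZMod 3) (hs : Adm s) :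
    (ZMod 91 × ZMod 9) ≃ Gam t s :=
  Equiv.ofBijective (fun p => ⟨rho t s p.1 p.2, ⟨p, rfl⟩⟩) (by
    constructor
    · intro p q h
      have h1 := inj ht s hs _ _ _ _ (congrArg Subtype.val h)
      exact Prod.ext h1.1 h1.2
    · rintro ⟨g, ⟨p, rfl⟩⟩
      exact ⟨p, rfl⟩)

theorem finite_Gam (s : ZMod 3 × ZMod 3) : Finite (Gam t s) := by
  have : Function.Surjective (fun p : ZMod 91 × ZMod 9 => (⟨rho t s p.1 p.2, ⟨p, rfl⟩⟩ : Gam t s)) := by
    rintro ⟨g, ⟨p, rfl⟩⟩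
    exact ⟨p, rfl⟩
  exact Finite.of_surjective _ this

theorem free_Gam (s : ZMod 3 × ZMod 3) (hs : Adm s) : FreeOn (Gam t s) := by
  rintro _ ⟨⟨i, j⟩, rfl⟩ hne v hv
  apply free s hs i j ?_ v hv
  by_contra hc
  push Not at hc
  obtain ⟨rfl, rfl⟩ := hc
  exact hne (rho_zero s)

theorem hilb_eq (ht : 0 < t) : hilb (Gam t (-1, -1)) = hilb (Gam t (-1, 1)) := by
  classical
  have := finite_Gam (t := t) (-1, -1)
  have := finite_Gam (t := t) (-1, 1)
  have := Fintype.ofFinite (Gam t (-1, -1))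
  have := Fintype.ofFinite (Gam t (-1, 1))
  have h1 := molien_series (Gam t (-1, -1))
  have h2 := molien_series (Gam t (-1, 1))
  have c1 : Fintype.card (Gam t (-1, -1)) = 819 := by
    rw [← Fintype.card_congr (par ht (-1, -1) (Or.inl rfl)), Fintype.card_prod, ZMod.card,
      ZMod.card]
  have c2 : Fintype.card (Gam t (-1, 1)) = 819 := by
    rw [← Fintype.card_congr (par ht (-1, 1) (Or.inr rfl)), Fintype.card_prod, ZMod.card,
      ZMod.card]
  rw [← Equiv.sum_comp (par ht (-1, -1) (Or.inl rfl))] at h1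
  rw [← Equiv.sum_comp (par ht (-1, 1) (Or.inr rfl))] at h2
  have h3 : ∑ p, tau (cx (par ht (-1, -1) (Or.inl rfl) p).1.1) =
      ∑ p, tau (cx (par ht (-1, 1) (Or.inr rfl) p).1.1) :=
    Finset.sum_congr rfl fun p _ => tau_eq p.1 p.2
  rw [h3, ← h2, c1, c2] at h1
  refine mul_left_cancel₀ ?_ h1
  rw [Ne, map_eq_zero_iff _ PowerSeries.C_injective]
  norm_num

theorem pow_snd (s : ZMod 3 × ZMod 3) (i : ZMod 91) (j : ZMod 9) (k : ℕ) :
    ∃ i', rho t s i j ^ k = rho t s i' (k * j) := by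
  induction k with
  | zero => exact ⟨0, by rw [pow_zero, Nat.cast_zero, zero_mul, rho_zero]⟩
  | succ k ih =>
    obtain ⟨i', hi'⟩ := ih
    refine ⟨i' + K (-s) ^ (((k : ZMod 9) * j).val) * i, ?_⟩
    rw [pow_succ, hi', rho_mul]
    congr 1
    push_cast
    ring

theorem pow_fst (s : ZMod 3 × ZMod 3) (i : ZMod 91) (k : ℕ) :
    rho t s i 0 ^ k = rho t s (k * i) 0 := by
  induction k with
  | zero => rw [pow_zero, Nat.cast_zero, zero_mul, rho_zero]
  | succ k ih =>
    rw [pow_succ, ih, rho_mul]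
    congr 1
    · rw [ZMod.val_zero, pow_zero]
      push_cast
      ring

theorem roots9 : ∀ j : ZMod 9, K (-(-1, 1)) ^ j.val = 1 ∨ K (-(-1, 1)) ^ j.val = 9 ∨
    K (-(-1, 1)) ^ j.val = 81 := by decide

theorem no_root1 : ∀ a : ZMod 91, 1 * a = 16 * a → 7 * a = 0 ∨ 13 * a = 0 := by decide

theorem no_root9 : ∀ a : ZMod 91, 9 * a = 16 * a → 7 * a = 0 ∨ 13 * a = 0 := by decide

theorem no_root81 : ∀ a : ZMod 91, 81 * a = 16 * a → 7 * a = 0 ∨ 13 * a = 0 := by decide

theorem no_root (a : ZMod 91) (j : ZMod 9) (h : K (-(-1, 1)) ^ j.val * a = 16 * a) :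
    7 * a = 0 ∨ 13 * a = 0 := by
  rcases roots9 j with h1 | h1 | h1 <;> rw [h1] at h
  · exact no_root1 a h
  · exact no_root9 a h
  · exact no_root81 a h

theorem not_iso (ht : 0 < t) : ¬ Nonempty (Gam t (-1, -1) ≃* Gam t (-1, 1)) := by
  rintro ⟨φ⟩
  have hs : Adm (-1, 1) := Or.inr rfl
  have hs1 : Adm (-1, -1) := Or.inl rfl
  let A : Gam t (-1, -1) := ⟨rho t (-1, -1) 1 0, ⟨(1, 0), rfl⟩⟩
  let B : Gam t (-1, -1) := ⟨rho t (-1, -1) 0 1, ⟨(0, 1), rfl⟩⟩
  obtain ⟨⟨a, b⟩, hab⟩ : ∃ p : ZMod 91 × ZMod 9, rho t (-1, 1) p.1 p.2 = (φ A).1 := (φ A).2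
  obtain ⟨⟨c, d⟩, hcd⟩ : ∃ p : ZMod 91 × ZMod 9, rho t (-1, 1) p.1 p.2 = (φ B).1 := (φ B).2
  simp only at hab hcd
  have hpow : ∀ k : ℕ, (A ^ k).1 = rho t (-1, -1) (k * 1) 0 := fun k => by
    rw [← pow_fst]; rfl
  -- order of `A`
  have hA91 : A ^ 91 = 1 := by
    apply Subtype.ext
    rw [hpow]
    have : ((91 : ℕ) : ZMod 91) * 1 = 0 := by decide
    rw [this, rho_zero]
    rfl
  have hb : b = 0 := by
    have h1 : (φ A).1 ^ 91 = 1 := by
      have := congrArg φ hA91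
      rw [map_pow, map_one] at this
      exact congrArg Subtype.val this
    rw [← hab] at h1
    obtain ⟨i', hi'⟩ := pow_snd (t := t) (-1, 1) a b 91
    rw [hi'] at h1
    obtain ⟨-, h2⟩ := ker ht _ hs _ _ h1
    have h3 : ((91 : ℕ) : ZMod 9) = 1 := by decide
    rwa [h3, one_mul] at h2
  subst hb
  have hk : ∀ k : ℕ, ((k : ZMod 91) * a = 0) → A ^ k = 1 := by
    intro k hk
    apply φ.injective
    rw [map_pow, map_one]
    apply Subtype.ext
    change (φ A).1 ^ k = 1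
    rw [← hab, pow_fst, hk, rho_zero]
  have h7 : (7 : ZMod 91) * a ≠ 0 := by
    intro h
    have h1 := congrArg Subtype.val (hk 7 (by exact_mod_cast h))
    rw [hpow] at h1
    obtain ⟨h2, -⟩ := ker ht _ hs1 _ _ h1
    revert h2
    decide
  have h13 : (13 : ZMod 91) * a ≠ 0 := by
    intro h
    have h1 := congrArg Subtype.val (hk 13 (by exact_mod_cast h))
    rw [hpow] at h1
    obtain ⟨h2, -⟩ := ker ht _ hs1 _ _ h1
    revert h2
    decide
  -- the relation
  have hrel : B * A = A ^ 16 * B := by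
    apply Subtype.ext
    change rho t (-1, -1) 0 1 * rho t (-1, -1) 1 0 = (A ^ 16).1 * rho t (-1, -1) 0 1
    rw [hpow, rho_mul, rho_mul]
    congr 1
  have hrel2 : (φ B).1 * (φ A).1 = (φ A).1 ^ 16 * (φ B).1 := by
    have := congrArg φ hrel
    rw [map_mul, map_mul, map_pow] at this
    exact congrArg Subtype.val this
  rw [← hab, ← hcd, pow_fst, rho_mul, rho_mul] at hrel2
  obtain ⟨h1, -⟩ := inj ht _ hs _ _ _ _ hrel2
  rw [ZMod.val_zero, pow_zero, one_mul, add_comm c] at h1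
  have h2 : K (-(-1, 1)) ^ d.val * a = 16 * a := by
    have := add_right_cancel h1
    exact_mod_cast this
  rcases no_root a d h2 with h | h
  · exact h7 h
  · exact h13 h

end Pool.Agent.Q185.SF
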